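import Mathlib
import Pool.Agent.H586R2.KCB.Defs

set_option autoImplicit false

/-!
Randomized procedures with access to two independence oracles, returning either a set (search
problem) or a yes or no answer (decision problem).
-/

namespace Pool.Agent.Y591.KC

open Pool.Agent.H586R2.KCB
open scoped ENNReal

/-- A deterministic adaptive procedure with access to two independence oracles and with a result in
`α`.  It either stops and returns an element of `α`, or it asks one of the two oracles (`false` for
the first matroid, `true` for the second) whether a set of its choice is independent, and goes on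
depending on the answer.  What it does between two questions is not restricted in any way. -/
inductive Proc (S α : Type) : Type
  | output : α → Proc S α
  | ask : Bool → Finset S → (Bool → Proc S α) → Proc S α

/-- The result when the two oracles are those of `M₁` and `M₂`. -/
noncomputable def Proc.run {S α : Type} (M₁ M₂ : Matroid S) : Proc S α → α
  | .output a => a
  | .ask b X next => Proc.run M₁ M₂ (next (answer M₁ M₂ b X))

/-- The number of oracle calls made when the two oracles are those of `M₁` and `M₂`. -/
noncomputable def Proc.calls {S α : Type} (M₁ M₂ : Matroid S) : Proc S α → ℕ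
  | .output _ => 0
  | .ask b X next => Proc.calls M₁ M₂ (next (answer M₁ M₂ b X)) + 1

/-- A randomized procedure: a probability distribution on deterministic procedures. -/
abbrev RandProc (S α : Type) : Type := PMF (Proc S α)

/-- The probability that the result of the randomized procedure `D` has the property `Q` when the
two oracles are those of `M₁` and `M₂`. -/
noncomputable def probability {S α : Type} (D : RandProc S α) (M₁ M₂ : Matroid S)
    (Q : α → Prop) : ℝ≥0∞ :=
  D.toOuterMeasure {T | Q (T.run M₁ M₂)}

/-- The expected number of oracle calls of the randomized procedure `D` when the two oracles are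
those of `M₁` and `M₂`. -/
noncomputable def expectedCalls {S α : Type} (D : RandProc S α) (M₁ M₂ : Matroid S) : ℝ≥0∞ :=
  ∑' T : Proc S α, D T * (T.calls M₁ M₂ : ℝ≥0∞)

/-- `X` is a `k`-feasible set whose weight is at least `1 - ε` times the weight of every
`k`-feasible set. -/
def NearOptimal {S : Type} (M₁ M₂ : Matroid S) (w : S → ℚ) (k : ℕ) (ε : ℚ) (X : Finset S) : Prop :=
  KFeasible M₁ M₂ k X ∧
    ∀ Y : Finset S, KFeasible M₁ M₂ k Y → (1 - ε) * ∑ e ∈ Y, w e ≤ ∑ e ∈ X, w e

/-- There is a `k`-feasible set of weight at least `t`. -/
def Attains {S : Type} (M₁ M₂ : Matroid S) (w : S → ℚ) (k : ℕ) (t : ℚ) : Prop :=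
  ∃ Y : Finset S, KFeasible M₁ M₂ k Y ∧ t ≤ ∑ e ∈ Y, w e

/-- `M` is a partition matroid: the independent sets are the sets with at most one element in
each class of some partition of the ground set. -/
def IsPartitionMatroid {S : Type} (M : Matroid S) : Prop :=
  ∃ (ι : Type) (g : S → ι), ∀ I : Set S, M.Indep I ↔ Set.InjOn g I

/-- A randomized algorithm for the search problem: for every size `n` of the ground set, all weights
and every `k`, a randomized procedure returning a set. -/
abbrev SearchAlgorithm : Type :=
  (n : ℕ) → (Fin n → ℚ) → ℕ → RandProc (Fin n) (Finset (Fin n))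

/-- A randomized algorithm for the decision problem: for every size `n` of the ground set, all
weights, every `k` and every threshold, a randomized procedure answering yes or no. -/
abbrev DecisionAlgorithm : Type :=
  (n : ℕ) → (Fin n → ℚ) → ℕ → ℚ → RandProc (Fin n) Bool

/-- The polynomial `c (n + b + 1) ^ c` in the size `n` of the ground set and the bit size `b` of the
numbers in the input. -/
noncomputable def polyBound (c n b : ℕ) : ℝ≥0∞ := ((c * (n + b + 1) ^ c : ℕ) : ℝ≥0∞)

/-- On every valid input, the expected number of oracle calls of the search algorithm is at most
polynomial, and with at least inverse polynomial probability it returns a `k`-feasible set whose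
weight is at least `1 - 1 / (2 n)` times the maximum. -/
def SearchEfficiently (A : SearchAlgorithm) (c : ℕ) : Prop :=
  ∀ (n : ℕ) (M₁ M₂ : Matroid (Fin n)) (w : Fin n → ℚ) (k : ℕ), ValidInstance M₁ M₂ w k →
    expectedCalls (A n w k) M₁ M₂ ≤ polyBound c n (bitSize w) ∧
    (polyBound c n (bitSize w))⁻¹ ≤
      probability (A n w k) M₁ M₂ (NearOptimal M₁ M₂ w k (1 / (2 * n)))

/-- On every valid input with threshold `t`, the expected number of oracle calls of the decision
algorithm is at most polynomial, the probability of answering yes is at most one half if no
`k`-feasible set has weight at least `t`, and it exceeds one half by at least an inverse polynomial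
if there is such a set. -/
def DecideEfficiently (A : DecisionAlgorithm) (c : ℕ) : Prop :=
  ∀ (n : ℕ) (M₁ M₂ : Matroid (Fin n)) (w : Fin n → ℚ) (k : ℕ) (t : ℚ), ValidInstance M₁ M₂ w k →
    expectedCalls (A n w k t) M₁ M₂ ≤
      polyBound c n (bitSize w + t.num.natAbs.size + t.den.size) ∧
    (¬ Attains M₁ M₂ w k t → probability (A n w k t) M₁ M₂ (fun b => b = true) ≤ 1 / 2) ∧
    (Attains M₁ M₂ w k t →
      1 / 2 + (polyBound c n (bitSize w + t.num.natAbs.size + t.den.size))⁻¹ ≤
        probability (A n w k t) M₁ M₂ (fun b => b = true))

end Pool.Agent.Y591.KC
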