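import Mathlib
import Pool.Agent.Y591.KC.Defs

set_option autoImplicit false

/-!
The adversary argument for randomized procedures: if every question distinguishes at most one of
the hidden instances from the reference instance, then the expected number of questions asked on
the reference instance bounds the sum over the hidden instances of the gains in probability.
-/

namespace Pool.Agent.Y591.KC

open Pool.Agent.H586R2.KCB Finset
open scoped ENNReal Classical

variable {S α κ : Type}

/-- the number of hidden instances on which the result differs from the result on the reference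
instance is at most the number of questions asked on the reference instance -/
theorem card_changed (M₁ M₂ : Matroid S) (N : κ → Matroid S) (T : Proc S α) (K : Finset κ)
    (hK : ∀ X : Finset S, ∀ a ∈ K, ∀ b ∈ K,
      ¬ ((N a).Indep (X : Set S) ↔ M₂.Indep (X : Set S)) →
      ¬ ((N b).Indep (X : Set S) ↔ M₂.Indep (X : Set S)) → a = b) :
    (K.filter (fun a => T.run M₁ (N a) ≠ T.run M₁ M₂)).card ≤ T.calls M₁ M₂ := by
  induction T generalizing K with
  | output x =>
    have : K.filter (fun a => (Proc.output x : Proc S α).run M₁ (N a)
        ≠ (Proc.output x : Proc S α).run M₁ M₂) = ∅ := by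
      apply filter_eq_empty_iff.2
      intro a _ h
      exact h rfl
    rw [this]
    simp
  | ask b X next ih =>
    have hcalls : (Proc.ask b X next).calls M₁ M₂
        = (next (answer M₁ M₂ b X)).calls M₁ M₂ + 1 := rfl
    rw [hcalls]
    have hone : (K.filter (fun a => ¬ answer M₁ (N a) b X = answer M₁ M₂ b X)).card ≤ 1 := by
      rw [card_le_one]
      intro a ha c hc
      rw [mem_filter] at ha hc
      have aux : ∀ d, ¬ answer M₁ (N d) b X = answer M₁ M₂ b X →
          ¬ ((N d).Indep (X : Set S) ↔ M₂.Indep (X : Set S)) := by
        intro d hd hiff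
        apply hd
        unfold answer
        cases b
        · simp
        · simp [hiff]
      exact hK X a ha.1 c hc.1 (aux a ha.2) (aux c hc.2)
    have hrec := ih (answer M₁ M₂ b X) (K.filter (fun a => answer M₁ (N a) b X = answer M₁ M₂ b X))
      (fun Y a ha c hc => hK Y a (mem_of_mem_filter _ ha) c (mem_of_mem_filter _ hc))
    have hsub : K.filter (fun a => (Proc.ask b X next).run M₁ (N a)
        ≠ (Proc.ask b X next).run M₁ M₂) ⊆
        (K.filter (fun a => ¬ answer M₁ (N a) b X = answer M₁ M₂ b X)) ∪
        ((K.filter (fun a => answer M₁ (N a) b X = answer M₁ M₂ b X)).filter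
          (fun a => (next (answer M₁ M₂ b X)).run M₁ (N a)
            ≠ (next (answer M₁ M₂ b X)).run M₁ M₂)) := by
      intro a ha
      rw [mem_filter] at ha
      rw [mem_union]
      by_cases hans : answer M₁ (N a) b X = answer M₁ M₂ b X
      · right
        rw [mem_filter, mem_filter]
        refine ⟨⟨ha.1, hans⟩, fun h => ha.2 ?_⟩
        change (next (answer M₁ (N a) b X)).run M₁ (N a) = (next (answer M₁ M₂ b X)).run M₁ M₂
        rw [hans, h]
      · left
        rw [mem_filter]
        exact ⟨ha.1, hans⟩
    have h1 := card_le_card hsub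
    have h2 := card_union_le (K.filter (fun a => ¬ answer M₁ (N a) b X = answer M₁ M₂ b X))
      ((K.filter (fun a => answer M₁ (N a) b X = answer M₁ M₂ b X)).filter
          (fun a => (next (answer M₁ M₂ b X)).run M₁ (N a)
            ≠ (next (answer M₁ M₂ b X)).run M₁ M₂))
    omega

/-- the number of hidden instances with a good result exceeds the number of those for which the
result on the reference instance is good at most by the number of questions -/
theorem card_good (M₁ M₂ : Matroid S) (N : κ → Matroid S) (T : Proc S α) (K : Finset κ)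
    (hK : ∀ X : Finset S, ∀ a ∈ K, ∀ b ∈ K,
      ¬ ((N a).Indep (X : Set S) ↔ M₂.Indep (X : Set S)) →
      ¬ ((N b).Indep (X : Set S) ↔ M₂.Indep (X : Set S)) → a = b) (Good : κ → α → Prop) :
    (K.filter (fun a => Good a (T.run M₁ (N a)))).card ≤
      T.calls M₁ M₂ + (K.filter (fun a => Good a (T.run M₁ M₂))).card := by
  have hsub : K.filter (fun a => Good a (T.run M₁ (N a))) ⊆
      (K.filter (fun a => T.run M₁ (N a) ≠ T.run M₁ M₂)) ∪
      (K.filter (fun a => Good a (T.run M₁ M₂))) := by
    intro a ha
    rw [mem_filter] at ha
    rw [mem_union, mem_filter, mem_filter]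
    by_cases h : T.run M₁ (N a) = T.run M₁ M₂
    · right
      rw [← h]
      exact ha
    · left
      exact ⟨ha.1, h⟩
  have h1 := card_le_card hsub
  have h2 := card_union_le (K.filter (fun a => T.run M₁ (N a) ≠ T.run M₁ M₂))
    (K.filter (fun a => Good a (T.run M₁ M₂)))
  have h3 := card_changed M₁ M₂ N T K hK
  omega

theorem probability_eq (D : RandProc S α) (M₁ M₂ : Matroid S) (Q : α → Prop) :
    probability D M₁ M₂ Q = ∑' T : Proc S α, D T * (if Q (T.run M₁ M₂) then 1 else 0) := by
  unfold probability
  rw [PMF.toOuterMeasure_apply]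
  apply tsum_congr
  intro T
  unfold Set.indicator
  by_cases h : Q (T.run M₁ M₂)
  · simp [h]
  · simp [h]

/-- the sum over a finite set of instances of probabilities is an expected number -/
theorem sum_probability_eq (D : RandProc S α) (K : Finset κ) (M₁ : Matroid S) (N : κ → Matroid S)
    (Good : κ → α → Prop) :
    ∑ a ∈ K, probability D M₁ (N a) (Good a) =
      ∑' T : Proc S α, D T * ((K.filter (fun a => Good a (T.run M₁ (N a)))).card : ℝ≥0∞) := by
  have h1 : ∀ a ∈ K, probability D M₁ (N a) (Good a) =
      ∑' T : Proc S α, D T * (if Good a (T.run M₁ (N a)) then 1 else 0) :=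
    fun a _ => probability_eq D M₁ (N a) (Good a)
  rw [sum_congr rfl h1, ← Summable.tsum_finsetSum (fun _ _ => ENNReal.summable)]
  apply tsum_congr
  intro T
  rw [← mul_sum, sum_boole]

/-- the adversary argument for randomized procedures -/
theorem sum_probability_le (D : RandProc S α) (M₁ M₂ : Matroid S) (N : κ → Matroid S)
    (K : Finset κ)
    (hK : ∀ X : Finset S, ∀ a ∈ K, ∀ b ∈ K,
      ¬ ((N a).Indep (X : Set S) ↔ M₂.Indep (X : Set S)) →
      ¬ ((N b).Indep (X : Set S) ↔ M₂.Indep (X : Set S)) → a = b) (Good : κ → α → Prop) :
    ∑ a ∈ K, probability D M₁ (N a) (Good a) ≤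
      expectedCalls D M₁ M₂ + ∑ a ∈ K, probability D M₁ M₂ (Good a) := by
  rw [sum_probability_eq, sum_probability_eq D K M₁ (fun _ => M₂) Good]
  unfold expectedCalls
  rw [← ENNReal.tsum_add]
  apply ENNReal.tsum_le_tsum
  intro T
  rw [← mul_add]
  apply mul_le_mul_right
  have := card_good M₁ M₂ N T K hK Good
  exact_mod_cast this

end Pool.Agent.Y591.KC
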