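import Mathlib
import Pool.Agent.H586R2.KCB.Main
import Pool.Agent.Y591.KC.Expect

set_option autoImplicit false

/-!
Lower bounds for randomized procedures: search with a small relative error, and decision.
-/

namespace Pool.Agent.Y591.KC

open Pool.Agent.H586R2.KCB Finset
open scoped ENNReal Classical

variable {m : ℕ}

theorem isPartitionMatroid_M1 : IsPartitionMatroid (M1 m) := by
  refine ⟨Option (Fin (2 * m) × Bool), g1, fun I => ?_⟩
  have hI : ((I.toFinset : Finset (Fin (8 * m))) : Set (Fin (8 * m))) = I := Set.coe_toFinset I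
  rw [← hI, M1_indep]
  constructor
  · intro h x hx y hy hxy
    exact h x (by simpa using hx) y (by simpa using hy) hxy
  · intro h x hx y hy hxy
    exact h (by simpa using hx) (by simpa using hy) hxy

/-- a set of weight more than `10 m - 1` in `bas I` determines `I` -/
theorem determines (I : Finset (Fin (2 * m))) (X : Finset (Fin (8 * m)))
    (hX : X ⊆ bas I) (hc : X.card = 3 * m) (hw : (10 * m - 1 : ℚ) < ∑ x ∈ X, wgt m x) :
    I.card = m ∧ (X.filter (fun x => ty x = 0)).image ix = I := by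
  have hIm : I.card = m := by
    by_contra h
    exact absurd (value_upper I h X hX hc) (not_le.2 hw)
  refine ⟨hIm, ?_⟩
  have hsub : ∀ t, (X.filter (fun x => ty x = t)).card ≤ ((bas I).filter (fun x => ty x = t)).card :=
    fun t => card_le_card (filter_subset_filter _ hX)
  have h0 := hsub 0
  rw [card_bas_in I 0 (by simp), hIm] at h0
  rw [sum_wgt, hc] at hw
  have hw1 : ((10 * m : ℕ) : ℚ) < ((3 * (3 * m) + (X.filter (fun x => ty x = 0)).card + 1 : ℕ) : ℚ)
      - ((2 * (X.filter (fun x => ty x = 2)).card : ℕ) : ℚ) := by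
    push_cast at hw ⊢
    linarith
  have hw2 : 10 * m + 2 * (X.filter (fun x => ty x = 2)).card <
      3 * (3 * m) + (X.filter (fun x => ty x = 0)).card + 1 := by
    have : ((10 * m + 2 * (X.filter (fun x => ty x = 2)).card : ℕ) : ℚ) <
        ((3 * (3 * m) + (X.filter (fun x => ty x = 0)).card + 1 : ℕ) : ℚ) := by
      push_cast at hw1 ⊢
      linarith
    exact_mod_cast this
  have ha : (X.filter (fun x => ty x = 0)).card = m := by omega
  have heq : X.filter (fun x => ty x = 0) = (bas I).filter (fun x => ty x = 0) := by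
    apply eq_of_subset_of_card_le (filter_subset_filter _ hX)
    rw [card_bas_in I 0 (by simp), hIm, ha]
  rw [heq]
  ext i
  rw [mem_image]
  constructor
  · rintro ⟨x, hx, rfl⟩
    rw [mem_filter, mem_bas] at hx
    obtain ⟨h1, h2⟩ := hx
    rcases h1 with ⟨-, h1⟩ | ⟨h1, -⟩
    · exact h1
    · rw [h2] at h1
      exact absurd h1 (by decide)
  · intro hi
    exact ⟨el i 0, by simp [mem_bas, hi], by simp⟩

/-- the reference instance -/
noncomputable def ref (hm : 0 < m) : Matroid (Fin (8 * m)) := M2 hm (mid m) Subset.rfl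

/-- the hidden instances -/
noncomputable def hid (hm : 0 < m) (J : Finset (Fin (2 * m))) : Matroid (Fin (8 * m)) :=
  M2 hm ((mid m).erase J) (erase_subset _ _)

theorem valid_ref (hm : 0 < m) : ValidInstance (M1 m) (ref hm) (wgt m) (3 * m) := valid hm _ _

theorem valid_hid (hm : 0 < m) (J : Finset (Fin (2 * m))) :
    ValidInstance (M1 m) (hid hm J) (wgt m) (3 * m) := valid hm _ _

theorem distinguish (hm : 0 < m) (X : Finset (Fin (8 * m))) :
    ∀ a ∈ mid m, ∀ b ∈ mid m,
      ¬ ((hid hm a).Indep (X : Set (Fin (8 * m))) ↔ (ref hm).Indep (X : Set (Fin (8 * m)))) →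
      ¬ ((hid hm b).Indep (X : Set (Fin (8 * m))) ↔ (ref hm).Indep (X : Set (Fin (8 * m)))) →
      a = b := by
  intro a _ b _ ha hb
  have h1 := indep_differ hm a X ha
  have h2 := indep_differ hm b X hb
  exact hyp_injective (h1.symm.trans h2)

/-- on the reference instance every feasible set has weight at most `10 m - 1` -/
theorem ref_upper (hm : 0 < m) (X : Finset (Fin (8 * m)))
    (hX : KFeasible (M1 m) (ref hm) (3 * m) X) : ∑ x ∈ X, wgt m x ≤ 10 * m - 1 := by
  obtain ⟨hXc, B, hB1, hB2, hXB⟩ := hX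
  obtain ⟨I, hI, rfl⟩ := base_structure hm _ _ B hB1 hB2
  exact value_upper I (fun h => hI (mem_mid.2 h)) _ hXB hXc

/-- on a hidden instance there is a feasible set of weight `10 m` -/
theorem hid_lower (hm : 0 < m) (J : Finset (Fin (2 * m))) (hJ : J ∈ mid m) :
    KFeasible (M1 m) (hid hm J) (3 * m) ((bas J).filter (fun x => ty x ≠ 2)) ∧
      ∑ x ∈ (bas J).filter (fun x => ty x ≠ 2), wgt m x = 10 * m := by
  obtain ⟨hl1, hl2⟩ := value_lower J (mem_mid.1 hJ)
  exact ⟨⟨hl1, bas J, bas_base1 J, bas_base2 hm _ _ J (by simp), filter_subset _ _⟩, hl2⟩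

/-- a feasible set of weight more than `10 m - 1` on a hidden instance reveals the instance -/
theorem hid_reveals (hm : 0 < m) (J : Finset (Fin (2 * m))) (X : Finset (Fin (8 * m)))
    (hX : KFeasible (M1 m) (hid hm J) (3 * m) X) (hw : (10 * m - 1 : ℚ) < ∑ x ∈ X, wgt m x) :
    (X.filter (fun x => ty x = 0)).image ix = J := by
  obtain ⟨hXc, B, hB1, hB2, hXB⟩ := hX
  obtain ⟨I, hI, rfl⟩ := base_structure hm _ _ B hB1 hB2
  obtain ⟨h1, h2⟩ := determines I X hXB hXc hw
  rw [h2]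
  by_contra hne
  exact hI (mem_erase.2 ⟨hne, mem_mid.2 h1⟩)

theorem near_weight (hm : 0 < m) (J : Finset (Fin (2 * m))) (hJ : J ∈ mid m) (ε : ℚ)
    (hε : 10 * m * ε < 1) (X : Finset (Fin (8 * m)))
    (hX : NearOptimal (M1 m) (hid hm J) (wgt m) (3 * m) ε X) :
    (10 * m - 1 : ℚ) < ∑ x ∈ X, wgt m x := by
  obtain ⟨h1, h2⟩ := hid_lower hm J hJ
  have := hX.2 _ h1
  rw [h2] at this
  linarith

theorem card_mid : (mid m).card = (2 * m).choose m := by
  unfold mid; rw [card_powersetCard, card_univ, Fintype.card_fin]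

/-- a set is near optimal on at most one of the reference instance and the hidden instances -/
theorem at_most_one (hm : 0 < m) (ε : ℚ) (hε : 10 * m * ε < 1) (X : Finset (Fin (8 * m))) :
    ((mid m).filter (fun J => NearOptimal (M1 m) (hid hm J) (wgt m) (3 * m) ε X)).card +
      (if NearOptimal (M1 m) (ref hm) (wgt m) (3 * m) ε X then 1 else 0) ≤ 1 := by
  by_cases h0 : NearOptimal (M1 m) (ref hm) (wgt m) (3 * m) ε X
  · rw [if_pos h0]
    have hup := ref_upper hm X h0.1
    have : (mid m).filter (fun J => NearOptimal (M1 m) (hid hm J) (wgt m) (3 * m) ε X) = ∅ := by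
      apply filter_eq_empty_iff.2
      intro J hJ hX
      exact absurd hup (not_le.2 (near_weight hm J hJ ε hε X hX))
    rw [this]
    simp
  · rw [if_neg h0, add_zero, card_le_one]
    intro a ha b hb
    rw [mem_filter] at ha hb
    rw [← hid_reveals hm a X ha.2.1 (near_weight hm a ha.1 ε hε X ha.2),
      hid_reveals hm b X hb.2.1 (near_weight hm b hb.1 ε hε X hb.2)]

/-- the lower bound for the search problem -/
theorem search_bound (hm : 0 < m) (D : RandProc (Fin (8 * m)) (Finset (Fin (8 * m)))) (ε : ℚ)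
    (p : ℝ≥0∞) (hε : 10 * m * ε < 1)
    (hD : ∀ M₂ : Matroid (Fin (8 * m)), ValidInstance (M1 m) M₂ (wgt m) (3 * m) →
      p ≤ probability D (M1 m) M₂ (NearOptimal (M1 m) M₂ (wgt m) (3 * m) ε)) :
    p * ((2 * m).choose m + 1) ≤ expectedCalls D (M1 m) (ref hm) + 1 := by
  have h1 := sum_probability_le D (M1 m) (ref hm) (hid hm) (mid m) (distinguish hm)
    (fun J => NearOptimal (M1 m) (hid hm J) (wgt m) (3 * m) ε)
  have h2 : ((2 * m).choose m : ℝ≥0∞) * p ≤ ∑ J ∈ mid m, probability D (M1 m) (hid hm J)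
      (NearOptimal (M1 m) (hid hm J) (wgt m) (3 * m) ε) := by
    rw [← card_mid, ← nsmul_eq_mul]
    exact card_nsmul_le_sum _ _ _ (fun J _ => hD _ (valid_hid hm J))
  have h3 := hD _ (valid_ref hm)
  have h4 : ∑ J ∈ mid m, probability D (M1 m) (ref hm)
      (NearOptimal (M1 m) (hid hm J) (wgt m) (3 * m) ε) +
      probability D (M1 m) (ref hm) (NearOptimal (M1 m) (ref hm) (wgt m) (3 * m) ε) ≤ 1 := by
    rw [sum_probability_eq D (mid m) (M1 m) (fun _ => ref hm)
      (fun J => NearOptimal (M1 m) (hid hm J) (wgt m) (3 * m) ε), probability_eq,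
      ← ENNReal.tsum_add]
    refine le_trans ?_ D.tsum_coe.le
    apply ENNReal.tsum_le_tsum
    intro T
    rw [← mul_add]
    have := at_most_one hm ε hε (T.run (M1 m) (ref hm))
    have h5 : (((mid m).filter (fun J => NearOptimal (M1 m) (hid hm J) (wgt m) (3 * m) ε
        (T.run (M1 m) (ref hm)))).card : ℝ≥0∞) +
        (if NearOptimal (M1 m) (ref hm) (wgt m) (3 * m) ε (T.run (M1 m) (ref hm)) then 1 else 0)
        ≤ 1 := by
      exact_mod_cast this
    calc D T * _ ≤ D T * 1 := mul_le_mul_right h5 _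
      _ = D T := mul_one _
  calc p * ((2 * m).choose m + 1) = (2 * m).choose m * p + p := by ring
    _ ≤ (expectedCalls D (M1 m) (ref hm) + ∑ J ∈ mid m, probability D (M1 m) (ref hm)
        (NearOptimal (M1 m) (hid hm J) (wgt m) (3 * m) ε)) +
        probability D (M1 m) (ref hm) (NearOptimal (M1 m) (ref hm) (wgt m) (3 * m) ε) :=
      add_le_add (h2.trans h1) h3
    _ = expectedCalls D (M1 m) (ref hm) + (∑ J ∈ mid m, probability D (M1 m) (ref hm)
        (NearOptimal (M1 m) (hid hm J) (wgt m) (3 * m) ε) +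
        probability D (M1 m) (ref hm) (NearOptimal (M1 m) (ref hm) (wgt m) (3 * m) ε)) := by
      rw [add_assoc]
    _ ≤ expectedCalls D (M1 m) (ref hm) + 1 := by gcongr

/-- the lower bound for the decision problem -/
theorem decision_bound (hm : 0 < m) (D : RandProc (Fin (8 * m)) Bool) (p q : ℝ≥0∞)
    (hD : ∀ M₂ : Matroid (Fin (8 * m)), ValidInstance (M1 m) M₂ (wgt m) (3 * m) →
      (¬ Attains (M1 m) M₂ (wgt m) (3 * m) (10 * m) →
        probability D (M1 m) M₂ (fun b => b = true) ≤ q) ∧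
      (Attains (M1 m) M₂ (wgt m) (3 * m) (10 * m) →
        p ≤ probability D (M1 m) M₂ (fun b => b = true))) :
    p * (2 * m).choose m ≤ expectedCalls D (M1 m) (ref hm) + q * (2 * m).choose m := by
  have h1 := sum_probability_le D (M1 m) (ref hm) (hid hm) (mid m) (distinguish hm)
    (fun _ b => b = true)
  have h2 : ((2 * m).choose m : ℝ≥0∞) * p ≤ ∑ J ∈ mid m, probability D (M1 m) (hid hm J)
      (fun b => b = true) := by
    rw [← card_mid, ← nsmul_eq_mul]
    apply card_nsmul_le_sum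
    intro J hJ
    apply (hD _ (valid_hid hm J)).2
    obtain ⟨h3, h4⟩ := hid_lower hm J hJ
    exact ⟨_, h3, h4.ge⟩
  have h3 : ∑ J ∈ mid m, probability D (M1 m) (ref hm) (fun b => b = true) ≤
      ((2 * m).choose m : ℝ≥0∞) * q := by
    rw [sum_const, nsmul_eq_mul, card_mid]
    apply mul_le_mul_right
    apply (hD _ (valid_ref hm)).1
    rintro ⟨Y, hY, hY2⟩
    have := ref_upper hm Y hY
    linarith
  calc p * (2 * m).choose m = (2 * m).choose m * p := mul_comm _ _
    _ ≤ _ := h2.trans h1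
    _ ≤ expectedCalls D (M1 m) (ref hm) + ((2 * m).choose m : ℝ≥0∞) * q := by gcongr
    _ = _ := by rw [mul_comm ((2 * m).choose m : ℝ≥0∞) q]

/-- central binomial coefficients outgrow all polynomials -/
theorem exists_large (c : ℕ) :
    ∃ m : ℕ, 0 < m ∧ (c * (52 * m) ^ c + 1) ^ 2 < (2 * m).choose m := by
  have hlim : Filter.Tendsto (fun m : ℕ => (2 * (c + 1) ^ 2 * 52 ^ (2 * c) : ℝ) *
      ((m : ℝ) ^ (2 * c + 1) / 4 ^ m)) Filter.atTop (nhds 0) := by
    have := (tendsto_pow_const_div_const_pow_of_one_lt (2 * c + 1) (r := 4) (by norm_num)).const_mul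
      (2 * (c + 1) ^ 2 * 52 ^ (2 * c) : ℝ)
    simpa using this
  have hev := hlim.eventually (gt_mem_nhds (show (0 : ℝ) < 1 by norm_num))
  obtain ⟨m, hm1, hm⟩ := (hev.and (Filter.eventually_ge_atTop 1)).exists
  refine ⟨m, hm, ?_⟩
  by_contra hcon
  push Not at hcon
  have h0 : 1 ≤ (52 * m) ^ c := Nat.one_le_pow _ _ (by omega)
  have h1 : (c * (52 * m) ^ c + 1) ^ 2 ≤ (c + 1) ^ 2 * (52 * m) ^ (2 * c) := by
    calc (c * (52 * m) ^ c + 1) ^ 2 ≤ ((c + 1) * (52 * m) ^ c) ^ 2 := by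
          apply Nat.pow_le_pow_left
          nlinarith
      _ = (c + 1) ^ 2 * (52 * m) ^ (2 * c) := by rw [mul_pow, ← pow_mul, mul_comm c 2]
  have h4 := Nat.four_pow_le_two_mul_self_mul_centralBinom m hm
  rw [Nat.centralBinom_eq_two_mul_choose] at h4
  have h5 : 4 ^ m ≤ 2 * m * ((c + 1) ^ 2 * (52 * m) ^ (2 * c)) :=
    h4.trans (Nat.mul_le_mul_left _ (hcon.trans h1))
  have h6 : (4 : ℝ) ^ m ≤ 2 * m * ((c + 1) ^ 2 * (52 * m) ^ (2 * c)) := by exact_mod_cast h5
  have h7 : (0 : ℝ) < 4 ^ m := by positivity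
  have h8 : (2 * (c + 1) ^ 2 * 52 ^ (2 * c) : ℝ) * ((m : ℝ) ^ (2 * c + 1) / 4 ^ m) =
      (2 * m * ((c + 1) ^ 2 * (52 * m) ^ (2 * c))) / 4 ^ m := by
    rw [mul_pow]; ring
  rw [h8, div_lt_one h7] at hm1
  linarith

/-- there is no efficient randomized search algorithm -/
theorem no_search (A : SearchAlgorithm) (c : ℕ) : ¬ SearchEfficiently A c := by
  intro hA
  obtain ⟨m, hm, hlarge⟩ := exists_large c
  set b : ℕ := c * (8 * m + bitSize (wgt m) + 1) ^ c with hb
  have hbits := bits_le (wgt m) wgt_values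
  have hbB : b ≤ c * (52 * m) ^ c := by
    apply Nat.mul_le_mul_left
    apply Nat.pow_le_pow_left
    omega
  have hpb : polyBound c (8 * m) (bitSize (wgt m)) = (b : ℝ≥0∞) := rfl
  have hm' : (m : ℚ) ≠ 0 := by exact_mod_cast hm.ne'
  have hε : 10 * (m : ℚ) * (1 / (2 * ((8 * m : ℕ) : ℚ))) < 1 := by
    push_cast
    field_simp
    norm_num
  have h1 := search_bound hm (A (8 * m) (wgt m) (3 * m)) (1 / (2 * ((8 * m : ℕ) : ℚ)))
    ((b : ℝ≥0∞)⁻¹) hε (fun M₂ hM₂ => by
      have := (hA _ _ _ _ _ hM₂).2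
      rw [hpb] at this
      exact this)
  have h2 := (hA _ _ _ _ _ (valid_ref hm)).1
  rw [hpb] at h2
  have h3 : (b : ℝ≥0∞)⁻¹ * ((2 * m).choose m + 1) ≤ (b : ℝ≥0∞) + 1 :=
    h1.trans (by gcongr)
  have hb0 : (b : ℝ≥0∞) ≠ 0 := by
    intro h0
    rw [h0, ENNReal.inv_zero, ENNReal.top_mul (by simp)] at h3
    simp at h3
  have h4 : ((2 * m).choose m : ℝ≥0∞) + 1 ≤ (b : ℝ≥0∞) * ((b : ℝ≥0∞) + 1) := by
    calc ((2 * m).choose m : ℝ≥0∞) + 1
        = (b : ℝ≥0∞) * ((b : ℝ≥0∞)⁻¹ * ((2 * m).choose m + 1)) := by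
          rw [← mul_assoc, ENNReal.mul_inv_cancel hb0 (ENNReal.natCast_ne_top b), one_mul]
      _ ≤ _ := by gcongr
  have h5 : (2 * m).choose m + 1 ≤ b * (b + 1) := by exact_mod_cast h4
  have h6 : b * (b + 1) ≤ (c * (52 * m) ^ c + 1) ^ 2 := by
    calc b * (b + 1) ≤ (b + 1) ^ 2 := by nlinarith
      _ ≤ (c * (52 * m) ^ c + 1) ^ 2 := Nat.pow_le_pow_left (by omega) 2
  omega

/-- there is no efficient randomized decision algorithm -/
theorem no_decision (A : DecisionAlgorithm) (c : ℕ) : ¬ DecideEfficiently A c := by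
  intro hA
  obtain ⟨m, hm, hlarge⟩ := exists_large c
  set t : ℚ := 10 * m with ht
  have ht' : t = ((10 * m : ℕ) : ℚ) := by rw [ht]; push_cast; ring
  set b : ℕ := c * (8 * m + (bitSize (wgt m) + t.num.natAbs.size + t.den.size) + 1) ^ c with hb
  have hbits := bits_le (wgt m) wgt_values
  have hnum : t.num.natAbs.size ≤ 10 * m := by
    rw [ht', Rat.num_natCast, Int.natAbs_natCast, Nat.size_le]
    exact Nat.lt_two_pow_self
  have hden : t.den.size ≤ 1 := by
    rw [ht', Rat.den_natCast]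
    decide
  have hbB : b ≤ c * (52 * m) ^ c := by
    apply Nat.mul_le_mul_left
    apply Nat.pow_le_pow_left
    omega
  have hpb : polyBound c (8 * m) (bitSize (wgt m) + t.num.natAbs.size + t.den.size)
      = (b : ℝ≥0∞) := rfl
  have h1 := decision_bound hm (A (8 * m) (wgt m) (3 * m) t) (1 / 2 + (b : ℝ≥0∞)⁻¹) (1 / 2)
    (fun M₂ hM₂ => by
      have := (hA _ _ _ _ _ t hM₂).2
      rw [hpb] at this
      exact this)
  have h2 := (hA _ _ _ _ _ t (valid_ref hm)).1
  rw [hpb] at h2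
  have h3 : (b : ℝ≥0∞)⁻¹ * (2 * m).choose m ≤ (b : ℝ≥0∞) := by
    have h3' : 1 / 2 * ((2 * m).choose m : ℝ≥0∞) + (b : ℝ≥0∞)⁻¹ * (2 * m).choose m ≤
        1 / 2 * ((2 * m).choose m : ℝ≥0∞) + (b : ℝ≥0∞) := by
      calc 1 / 2 * ((2 * m).choose m : ℝ≥0∞) + (b : ℝ≥0∞)⁻¹ * (2 * m).choose m
          = (1 / 2 + (b : ℝ≥0∞)⁻¹) * (2 * m).choose m := by rw [add_mul]
        _ ≤ _ := h1
        _ ≤ (b : ℝ≥0∞) + 1 / 2 * (2 * m).choose m := by gcongr
        _ = _ := add_comm _ _
    exact (ENNReal.add_le_add_iff_left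
      (ENNReal.mul_ne_top (by simp) (ENNReal.natCast_ne_top _))).1 h3'
  have hchoose : ((2 * m).choose m : ℝ≥0∞) ≠ 0 := by
    have : 0 < (2 * m).choose m := Nat.choose_pos (by omega)
    exact_mod_cast this.ne'
  have hb0 : (b : ℝ≥0∞) ≠ 0 := by
    intro h0
    rw [h0, ENNReal.inv_zero, ENNReal.top_mul hchoose] at h3
    simp at h3
  have h4 : ((2 * m).choose m : ℝ≥0∞) ≤ (b : ℝ≥0∞) * (b : ℝ≥0∞) := by
    calc ((2 * m).choose m : ℝ≥0∞)
        = (b : ℝ≥0∞) * ((b : ℝ≥0∞)⁻¹ * (2 * m).choose m) := by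
          rw [← mul_assoc, ENNReal.mul_inv_cancel hb0 (ENNReal.natCast_ne_top b), one_mul]
      _ ≤ _ := by gcongr
  have h5 : (2 * m).choose m ≤ b * b := by exact_mod_cast h4
  have h6 : b * b ≤ (c * (52 * m) ^ c + 1) ^ 2 := by
    calc b * b ≤ (b + 1) ^ 2 := by nlinarith
      _ ≤ (c * (52 * m) ^ c + 1) ^ 2 := Nat.pow_le_pow_left (by omega) 2
  omega

end Pool.Agent.Y591.KC
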